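import Pool.Agent.H19.BFL.Stmts

/-!
# Coefficient bounds: products, derivatives, determinants
-/

set_option autoImplicit false

namespace Pool.STAT84

open Finset MvPolynomial
open Pool.BFL (Pl CB Pb)

variable {N : ℕ}

theorem CB.mono84 {P : Pl N} {r r' : ℝ} (h : CB P r) (hr : r ≤ r') : CB P r' :=
  fun k => (h k).trans hr

/-- The number of monomials of degree `≤ D` is at most `(D + 1) ^ N`. -/
theorem card_support_le {P : Pl N} {D : ℕ} (h : P.totalDegree ≤ D) :
    P.support.card ≤ (D + 1) ^ N := by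
  classical
  have h1 : P.support.card ≤ (Fintype.piFinset fun _ : Fin N => range (D + 1)).card := by
    refine Finset.card_le_card_of_injOn (fun k => (k : Fin N → ℕ)) ?_ ?_
    · intro k hk
      rw [Finset.mem_coe, Fintype.mem_piFinset]
      intro i
      rw [mem_range]
      have h2 : k i ≤ k.sum fun _ e => e := by
        rw [Finsupp.sum_fintype _ _ (fun _ => rfl)]
        exact single_le_sum (f := fun i => k i) (fun _ _ => Nat.zero_le _) (mem_univ i)
      have h3 := le_totalDegree hk
      exact Nat.lt_succ_of_le (h2.trans (h3.trans h))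
    · intro k _ k' _ e
      exact DFunLike.coe_injective e
  refine h1.trans (le_of_eq ?_)
  rw [Fintype.card_piFinset, prod_const, card_range, card_univ, Fintype.card_fin]

theorem cb_mul {P Q : Pl N} {r r' : ℝ} {D : ℕ} (hr : 0 ≤ r) (hr' : 0 ≤ r')
    (hD : P.totalDegree ≤ D) (h : CB P r) (h' : CB Q r') :
    CB (P * Q) (((D : ℝ) + 1) ^ N * r * r') := by
  classical
  intro k
  rw [coeff_mul]
  have h1 : |∑ x ∈ antidiagonal k, coeff x.1 P * coeff x.2 Q| ≤
      ∑ x ∈ (antidiagonal k).filter (fun x => x.1 ∈ P.support), r * r' := by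
    rw [sum_filter]
    refine (abs_sum_le_sum_abs _ _).trans (sum_le_sum fun x _ => ?_)
    split_ifs with hx
    · rw [abs_mul]
      exact mul_le_mul (h _) (h' _) (abs_nonneg _) hr
    · rw [notMem_support_iff] at hx
      rw [hx, zero_mul, abs_zero]
  refine h1.trans ?_
  rw [sum_const, nsmul_eq_mul]
  have h2 : ((antidiagonal k).filter (fun x => x.1 ∈ P.support)).card ≤ P.support.card := by
    refine Finset.card_le_card_of_injOn (fun x => x.1) ?_ ?_
    · intro x hx
      rw [Finset.mem_coe, mem_filter] at hx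
      exact hx.2
    · intro x hx y hy e
      rw [Finset.mem_coe, mem_filter, HasAntidiagonal.mem_antidiagonal] at hx hy
      have e' : x.1 = y.1 := e
      have h3 : x.1 + x.2 = x.1 + y.2 := by rw [hx.1, e', hy.1]
      exact Prod.ext e' (add_left_cancel h3)
  have h3 : (((antidiagonal k).filter (fun x => x.1 ∈ P.support)).card : ℝ) ≤
      ((D : ℝ) + 1) ^ N := by
    have := h2.trans (card_support_le hD)
    exact_mod_cast this
  rw [mul_assoc]
  exact mul_le_mul_of_nonneg_right h3 (mul_nonneg hr hr')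

theorem cb_one : CB (1 : Pl N) 1 := by
  classical
  intro k
  rw [coeff_one]
  split_ifs
  · rw [abs_one]
  · rw [abs_zero]; exact zero_le_one

theorem cb_prod {ι : Type*} (s : Finset ι) (f : ι → Pl N) {r : ℝ} {D : ℕ} (hr : 0 ≤ r)
    (hD : ∀ i ∈ s, (f i).totalDegree ≤ D) (h : ∀ i ∈ s, CB (f i) r) :
    CB (∏ i ∈ s, f i) ((((D : ℝ) + 1) ^ N * r) ^ s.card) := by
  classical
  induction s using Finset.induction_on with
  | empty => simpa using cb_one
  | insert a s ha ih =>
    rw [prod_insert ha, card_insert_of_notMem ha, pow_succ, mul_comm (_ ^ s.card)]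
    have h1 := ih (fun i hi => hD i (mem_insert_of_mem hi)) (fun i hi => h i (mem_insert_of_mem hi))
    have h2 := cb_mul hr (by positivity) (hD a (mem_insert_self a s)) (h a (mem_insert_self a s)) h1
    exact h2

theorem cb_pderiv {P : Pl N} {r : ℝ} {D : ℕ} (hr : 0 ≤ r) (hD : P.totalDegree ≤ D) (h : CB P r)
    (i : Fin N) : CB (pderiv i P) (D * r) := by
  classical
  intro k
  rw [coeff_pderiv]
  by_cases h0 : k + Finsupp.single i 1 ∈ P.support
  · have h1 := (le_totalDegree h0).trans hD
    have h2 : k i + 1 ≤ (k + Finsupp.single i 1).sum fun _ e => e := by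
      rw [Finsupp.sum_fintype _ _ (fun _ => rfl)]
      have h3 := single_le_sum (f := fun l => (k + Finsupp.single i 1 : Fin N →₀ ℕ) l)
        (fun _ _ => Nat.zero_le _) (mem_univ i)
      rw [Finsupp.add_apply, Finsupp.single_eq_same] at h3
      exact h3
    have h4 : (k i : ℝ) + 1 ≤ D := by exact_mod_cast h2.trans h1
    rw [abs_mul, mul_comm, abs_of_nonneg (by positivity : (0 : ℝ) ≤ k i + 1)]
    exact mul_le_mul h4 (h _) (abs_nonneg _) (by positivity)
  · rw [notMem_support_iff] at h0
    rw [h0, zero_mul, abs_zero]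
    positivity

theorem deg_pderiv {P : Pl N} {D : ℕ} (hD : P.totalDegree ≤ D) (i : Fin N) :
    (pderiv i P).totalDegree ≤ D := by
  classical
  unfold totalDegree
  refine Finset.sup_le fun k hk => ?_
  rw [mem_support_iff, coeff_pderiv] at hk
  have h0 : k + Finsupp.single i 1 ∈ P.support := by
    rw [mem_support_iff]
    exact left_ne_zero_of_mul hk
  have h1 := (le_totalDegree h0).trans hD
  refine le_trans ?_ h1
  rw [Finsupp.sum_fintype _ _ (fun _ => rfl), Finsupp.sum_fintype _ _ (fun _ => rfl)]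
  refine sum_le_sum fun l _ => ?_
  rw [Finsupp.add_apply]
  exact Nat.le_add_right _ _

theorem cb_neg {P : Pl N} {r : ℝ} (h : CB P r) : CB (-P) r := by
  intro k
  rw [coeff_neg, abs_neg]
  exact h k

theorem cb_det {n : ℕ} (A : Matrix (Fin n) (Fin n) (Pl N)) {r : ℝ} {D : ℕ} (hr : 0 ≤ r)
    (hD : ∀ i k, (A i k).totalDegree ≤ D) (h : ∀ i k, CB (A i k) r) :
    CB A.det (n.factorial * (((D : ℝ) + 1) ^ N * r) ^ n) := by
  classical
  rw [Matrix.det_apply]
  have h1 : ∀ σ : Equiv.Perm (Fin n),
      CB (Equiv.Perm.sign σ • ∏ i, A (σ i) i) ((((D : ℝ) + 1) ^ N * r) ^ n) := by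
    intro σ
    have h2 := cb_prod univ (fun i => A (σ i) i) hr (fun i _ => hD _ _) (fun i _ => h _ _)
    rw [card_univ, Fintype.card_fin] at h2
    rcases Int.units_eq_one_or (Equiv.Perm.sign σ) with e | e
    · rw [e, one_smul]; exact h2
    · rw [e, Units.neg_smul, one_smul]; exact cb_neg h2
  intro k
  rw [coeff_sum]
  refine (abs_sum_le_sum_abs _ _).trans ?_
  refine (sum_le_sum fun σ _ => h1 σ k).trans ?_
  rw [sum_const, card_univ, Fintype.card_perm, Fintype.card_fin, nsmul_eq_mul]

theorem deg_det {n : ℕ} (A : Matrix (Fin n) (Fin n) (Pl N)) {D : ℕ}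
    (hD : ∀ i k, (A i k).totalDegree ≤ D) : A.det.totalDegree ≤ n * D := by
  classical
  rw [Matrix.det_apply]
  refine totalDegree_finsetSum_le fun σ _ => ?_
  have h2 : (∏ i, A (σ i) i).totalDegree ≤ n * D := by
    refine (totalDegree_finsetProd _ _).trans ?_
    refine (sum_le_sum fun i _ => hD (σ i) i).trans ?_
    rw [sum_const, card_univ, Fintype.card_fin, smul_eq_mul]
  rcases Int.units_eq_one_or (Equiv.Perm.sign σ) with e | e
  · rw [e, one_smul]; exact h2
  · rw [e, Units.neg_smul, one_smul, totalDegree_neg]; exact h2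

/-! ### Probabilities -/

theorem Pb_mono84 {W : Type} [Fintype W] {q : W → ℝ} (hq : ∀ w, 0 ≤ q w) {A B : W → Prop}
    (h : ∀ w, 0 < q w → A w → B w) : Pb q A ≤ Pb q B := by
  classical
  unfold Pb
  refine sum_le_sum fun w _ => ?_
  by_cases hA : A w
  · rcases (hq w).eq_or_lt with h0 | h0
    · rw [← h0]
      split_ifs <;> exact le_rfl
    · rw [if_pos hA, if_pos (h w h0 hA)]
  · rw [if_neg hA]
    split_ifs
    exacts [hq w, le_rfl]

theorem Pb_or84 {W : Type} [Fintype W] {q : W → ℝ} (hq : ∀ w, 0 ≤ q w) (A B : W → Prop) :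
    Pb q (fun w => A w ∨ B w) ≤ Pb q A + Pb q B := by
  classical
  unfold Pb
  rw [← sum_add_distrib]
  refine sum_le_sum fun w _ => ?_
  have := hq w
  by_cases hA : A w
  · rw [if_pos (Or.inl hA), if_pos hA]
    split_ifs <;> linarith only [this]
  · by_cases hB : B w
    · rw [if_pos (Or.inr hB), if_neg hA, if_pos hB, zero_add]
    · rw [if_neg (by tauto), if_neg hA, if_neg hB, zero_add]

theorem Pb_ex84 {W ι : Type} [Fintype W] [Fintype ι] {q : W → ℝ} (hq : ∀ w, 0 ≤ q w)
    (A : ι → W → Prop) : Pb q (fun w => ∃ i, A i w) ≤ ∑ i, Pb q (A i) := by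
  classical
  unfold Pb
  rw [Finset.sum_comm]
  refine Finset.sum_le_sum fun w _ => ?_
  have h2 : ∀ i ∈ (univ : Finset ι), 0 ≤ (if A i w then q w else 0) := fun i _ => by
    split_ifs
    exacts [hq w, le_rfl]
  by_cases h3 : ∃ i, A i w
  · rw [if_pos h3]
    obtain ⟨i, h4⟩ := h3
    have := Finset.single_le_sum h2 (mem_univ i)
    rwa [if_pos h4] at this
  · rw [if_neg h3]
    exact Finset.sum_nonneg h2

end Pool.STAT84
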