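import Pool.Agent.H64.STAT.Rows
import Pool.Agent.H39.BFL.Walk
import Pool.Agent.H84.STAT.Cb

/-!
# Weighted core, assembly (C)

If the walks of `N` legs are not flat with probability almost `1`, then some minor is not small.
-/

set_option autoImplicit false

namespace Pool.STAT

open Finset MvPolynomial
open Pool.Agent.H49.Ent Pool.Agent.H32.Dense Pool.STK Pool.KS3
open Pool.BFL (Pl CB Pb P2 MC alt)
open Pool.STAT84

/-- The bounds for the minors. -/
theorem minA_bound (h1 : Flw1Stmt) (h2 : Flw2Stmt) (c j N : ℕ) (d : Fin c → ℕ)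
    (hd : ∀ i, 1 ≤ d i) (hj : 1 ≤ j) :
    ∃ (D : ℕ) (K₁ : ℝ) (K₂ : ℕ), 1 ≤ K₁ ∧ ∀ R : ℝ, 1 ≤ R →
      ∀ (ξ : Fin N → Fin c → Pl c) (b : Fin N → Pl c), (∀ a, VF d (ξ a)) →
      (∀ a, (b a).IsWeightedHomogeneous d (j - 1)) → (∀ a i, CB (ξ a i) R) → (∀ a, CB (b a) R) →
      ∀ e : Fin (c + 1) → Fin N, (minA d j ξ b e).totalDegree ≤ D ∧
        CB (minA d j ξ b e) (K₁ * R ^ K₂) := by
  obtain ⟨K, hK⟩ := h2 c j N d hd hj
  set D₀ : ℕ := (∑ i, d i) + j with hD₀
  refine ⟨(c + 1) * D₀, max 1 ((c + 1).factorial *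
    (((D₀ : ℝ) + 1) ^ N * (D₀ * K)) ^ (c + 1)), K * (c + 1), le_max_left _ _, ?_⟩
  intro R hR ξ b hξ hb hξR hbR e
  have hR0 : 0 ≤ R := by linarith only [hR]
  obtain ⟨a1, a2⟩ := h1 c j N d ξ b hd hj hξ hb
  obtain ⟨b1, b2⟩ := hK R hR ξ b hξ hb hξR hbR
  have hdeg : ∀ i : Fin (c + 1),
      ((Fin.snoc (wT d N ξ) (wH d j N ξ b) : Fin (c + 1) → Pl N) i).totalDegree ≤ D₀ := by
    intro i
    refine Fin.lastCases ?_ (fun i => ?_) i
    · rw [Fin.snoc_last]
      exact (a2.totalDegree_le).trans (by omega)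
    · rw [Fin.snoc_castSucc]
      refine ((a1 i).totalDegree_le).trans ?_
      have := single_le_sum (f := d) (fun _ _ => Nat.zero_le _) (mem_univ i)
      omega
  have hcb : ∀ i : Fin (c + 1),
      CB ((Fin.snoc (wT d N ξ) (wH d j N ξ b) : Fin (c + 1) → Pl N) i) (K * R ^ K) := by
    intro i
    refine Fin.lastCases ?_ (fun i => ?_) i
    · rw [Fin.snoc_last]; exact b2
    · rw [Fin.snoc_castSucc]; exact b1 i
  have hr0 : (0 : ℝ) ≤ K * R ^ K := by positivity
  constructor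
  · exact deg_det _ fun i k => deg_pderiv (hdeg i) (e k)
  · have h3 := cb_det (Matrix.of fun i k => pderiv (e k)
      ((Fin.snoc (wT d N ξ) (wH d j N ξ b) : Fin (c + 1) → Pl N) i))
      (r := D₀ * (K * R ^ K)) (D := D₀) (by positivity)
      (fun i k => deg_pderiv (hdeg i) (e k)) (fun i k => cb_pderiv hr0 (hdeg i) (hcb i) (e k))
    refine CB.mono84 h3 ?_
    have h4 : ((c + 1).factorial : ℝ) *
        (((D₀ : ℝ) + 1) ^ N * (D₀ * (K * R ^ K))) ^ (c + 1) =
        ((c + 1).factorial * (((D₀ : ℝ) + 1) ^ N * (D₀ * K)) ^ (c + 1)) *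
          R ^ (K * (c + 1)) := by
      rw [pow_mul, mul_assoc, ← mul_pow]
      ring
    rw [h4]
    exact mul_le_mul_of_nonneg_right (le_max_right _ _) (by positivity)

/-- **Assembly (C).** -/
theorem big_thm (h1 : Flw1Stmt) (h2 : Flw2Stmt) (h3 : RmgStmt) : BigStmt := by
  classical
  intro c j N d C₀ τ' η hN hC₀ hτ' hη
  by_cases hdj : (∀ i, 1 ≤ d i) ∧ 1 ≤ j
  swap
  · refine ⟨1, 1, one_pos, one_pos, 0, ?_⟩
    intro U m _ _ Ω G B 𝔅 𝒱 _ p g bk β V tm pT pN ΘT FN ξT ξN hW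
    exact absurd ⟨hW.d_pos, hW.j_pos⟩ hdj
  obtain ⟨hd, hj⟩ := hdj
  obtain ⟨D, K₁, K₂, hK₁, hK⟩ := minA_bound h1 h2 c j N d hd hj
  have hN0 : (0 : ℝ) < N := by exact_mod_cast hN
  have hη' : 0 < η / (2 * (N : ℝ) ^ (c + 1)) := by positivity
  obtain ⟨κ, τR, hκ, hτR, U₁, hRM⟩ := h3 N D C₀ τ' (η / (2 * (N : ℝ) ^ (c + 1))) hN hC₀ hτ' hη'
  -- the choice of `τ`
  set τ : ℝ := τR / (2 * ((K₂ : ℝ) + 2 * N)) with hτ
  have hKN : (0 : ℝ) < (K₂ : ℝ) + 2 * N := by positivity
  have hτ0 : 0 < τ := by positivity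
  have hτe : ((K₂ : ℝ) + 2 * N) * τ = τR / 2 := by
    rw [hτ]; field_simp
  obtain ⟨U₂, hU₂⟩ := exists_nat_ge (2 * K₁ / τR)
  refine ⟨κ, τ, hκ, hτ0, max U₁ U₂, ?_⟩
  intro U m hU hm Ω G B 𝔅 𝒱 _ p g bk β V tm pT pN ΘT FN ξT ξN hW hF W _ q z hMC
  have hp := hW.isLaw
  have hp0 := hp.nonneg
  have hq := hMC.isLaw
  have hq0 := hq.nonneg
  have hU1 : U₁ ≤ U := (le_max_left _ _).trans hU
  have hU2 : (U₂ : ℝ) ≤ U := by exact_mod_cast (le_max_right _ _).trans hU
  have hU0 : (0 : ℝ) ≤ U := Nat.cast_nonneg _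
  have hpos : ∀ i ≤ 2 * N - 1, ∀ w, 0 < q w → 0 < p (z i w) :=
    fun i hi w hw => (hMC.marg i hi).pos hq0 hw
  -- `β` is constant along the walk
  have hβ1 : ∀ w, 0 < q w → ∀ i < 2 * N - 1, β (z i w) = β (z (i + 1) w) := by
    intro w hw i hi
    have h1 := hMC.same w hw i hi
    have p1 := hpos i hi.le w hw
    have p2 := hpos (i + 1) hi w hw
    unfold alt at h1
    split_ifs at h1 with he
    · exact hW.g_β _ _ p1 p2 (Sum.inl_injective h1)
    · exact hW.bk_β _ _ p1 p2 (Sum.inr_injective h1)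
  have hβ : ∀ w, 0 < q w → ∀ i ≤ 2 * N - 1, β (z 0 w) = β (z i w) := by
    intro w hw i
    induction i with
    | zero => intro _; rfl
    | succ i ih =>
      intro hi
      rw [ih (by omega), hβ1 w hw i (by omega)]
  -- the label of a block
  obtain ⟨w₀, hw₀⟩ : ∃ w, 0 < q w := by
    by_contra h
    push Not at h
    have h5 : ∑ w, q w ≤ 0 := sum_nonpos fun w _ => h w
    rw [hq.sum_one] at h5
    exact absurd h5 (by norm_num)
  set βo : B → 𝔅 := fun x => if h : ∃ ω, 0 < p ω ∧ bk ω = x then β h.choose else β (z 0 w₀)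
    with hβo
  have hβo1 : ∀ ω, 0 < p ω → βo (bk ω) = β ω := by
    intro ω hω
    have h : ∃ ω', 0 < p ω' ∧ bk ω' = bk ω := ⟨ω, hω, rfl⟩
    rw [hβo]
    simp only
    rw [dif_pos h]
    exact hW.bk_β _ _ h.choose_spec.1 hω h.choose_spec.2
  -- the lengths of the legs
  set S : W → Fin N → ℤ := fun w a => tm (z (2 * a + 1) w) - tm (z (2 * a) w) with hS
  set S' : W → Fin N → ℤ := fun w a => if |S w a| ≤ 2 ^ m then S w a else 0 with hS'
  have hSS : ∀ w, 0 < q w → S' w = S w := by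
    intro w hw
    funext a
    have h5 := hMC.same w hw (2 * a) (by omega)
    unfold alt at h5
    rw [if_pos (by omega), if_pos (by omega)] at h5
    have h6 := hW.tm_g _ _ (Sum.inl_injective h5)
    rw [hS', hS]
    simp only
    rw [if_pos h6]
  have hS'le : ∀ w a, |S' w a| ≤ 2 ^ m := by
    intro w a
    rw [hS']
    simp only
    split_ifs with h
    · exact h
    · rw [abs_zero]; positivity
  -- the variables of the legs
  set v : W → (Fin N → 𝒱) × B := fun w => ((fun a : Fin N => V (z (2 * a) w)), bk (z 0 w)) with hv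
  have hent : N * (m * Real.log 2) - τR * U ≤ CH q S' v := by
    have h5 := Pool.Agent.H39.BFL.wle_thm Ω G B 𝔅 𝒱 W p g bk β V tm N q z
      (m * Real.log 2 - τ * U) (τ * U) hp hN hMC hW.bk_β hW.g_β hW.bk_tm hW.timeFull hW.indep
    have h6 : CH q S' v = CH q (fun w (a : Fin N) => tm (z (2 * a + 1) w) - tm (z (2 * a) w))
        (fun w => ((fun a : Fin N => V (z (2 * a) w)), bk (z 0 w))) := by
      refine CH_congr hq0 ?_ ?_ ?_ ?_
      · intro w w' hw hw' e
        have e1 := (Prod.ext_iff.mp e).1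
        simp only at e1
        rw [hSS w hw, hSS w' hw'] at e1
        exact e1
      · intro w w' hw hw' e
        have e1 := (Prod.ext_iff.mp e).1
        rw [hSS w hw, hSS w' hw']
        exact e1
      · intro w w' _ _ e; exact e
      · intro w w' _ _ e; exact e
    rw [h6]
    refine le_trans ?_ h5
    have h7 : (2 * (N : ℝ)) * τ ≤ τR := by
      have : 0 ≤ (K₂ : ℝ) * τ := by positivity
      nlinarith only [hτe, this, hτR]
    have h8 : (2 * (N : ℝ)) * τ * U ≤ τR * U := mul_le_mul_of_nonneg_right h7 hU0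
    have h9 : 0 ≤ τ * U := by positivity
    nlinarith only [h8, h9]
  -- the minors
  have hR1 : (1 : ℝ) ≤ Real.exp (τ * U) := Real.one_le_exp (by positivity)
  have hmin : ∀ (x : (Fin N → 𝒱) × B) (e : Fin (c + 1) → Fin N),
      (minA d j (fun a => ξT (x.1 a) (βo x.2)) (fun a => ξN (x.1 a) (βo x.2)) e).totalDegree ≤ D ∧
      CB (minA d j (fun a => ξT (x.1 a) (βo x.2)) (fun a => ξN (x.1 a) (βo x.2)) e)
        (Real.exp (τR * U)) := by
    intro x e
    obtain ⟨a1, a2⟩ := hK _ hR1 (fun a => ξT (x.1 a) (βo x.2)) (fun a => ξN (x.1 a) (βo x.2))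
      (fun a => hW.ξT_vf _ _) (fun a => hW.ξN_hom _ _) (fun a i => hW.ξT_le _ _ i)
      (fun a => hW.ξN_le _ _) e
    refine ⟨a1, CB.mono84 a2 ?_⟩
    have h5 : K₁ ≤ Real.exp (τR / 2 * U) := by
      have h6 : K₁ ≤ τR / 2 * U := by
        have h7 : 2 * K₁ / τR ≤ U := hU₂.trans hU2
        rw [div_le_iff₀ hτR] at h7
        linarith only [h7]
      linarith only [h6, Real.add_one_le_exp (τR / 2 * U)]
    have h6 : Real.exp (τ * U) ^ K₂ ≤ Real.exp (τR / 2 * U) := by
      rw [← Real.exp_nat_mul]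
      refine Real.exp_le_exp.2 ?_
      have h7 : (K₂ : ℝ) * τ ≤ τR / 2 := by
        have : 0 ≤ 2 * (N : ℝ) * τ := by positivity
        linarith only [hτe, this]
      have h8 := mul_le_mul_of_nonneg_right h7 hU0
      linarith only [h8]
    calc K₁ * Real.exp (τ * U) ^ K₂ ≤ Real.exp (τR / 2 * U) * Real.exp (τR / 2 * U) :=
          mul_le_mul h5 h6 (by positivity) (by positivity)
      _ = Real.exp (τR * U) := by
          rw [← Real.exp_add]
          ring_nf
  -- the minors on the support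
  have hleg : ∀ w, 0 < q w → ∀ e : Fin (c + 1) → Fin N,
      minA d j (lgT β V ξT N z w) (lgN β V ξN N z w) e =
        minA d j (fun a => ξT ((v w).1 a) (βo (v w).2)) (fun a => ξN ((v w).1 a) (βo (v w).2)) e := by
    intro w hw e
    have h5 : ∀ a : Fin N, β (z (2 * a) w) = βo (bk (z 0 w)) := by
      intro a
      rw [hβo1 _ (hpos 0 (by omega) w hw), hβ w hw (2 * a) (by omega)]
    have h6 : lgT β V ξT N z w = fun a => ξT ((v w).1 a) (βo (v w).2) := by
      funext a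
      unfold lgT
      rw [h5 a]
    have h7 : lgN β V ξN N z w = fun a => ξN ((v w).1 a) (βo (v w).2) := by
      funext a
      unfold lgN
      rw [h5 a]
    rw [h6, h7]
  have hlen : ∀ w, 0 < q w → len tm m N z w = fun a => (S' w a : ℝ) / 2 ^ m := by
    intro w hw
    rw [hSS w hw]
    rfl
  -- the bad events
  have hbad : ∀ e : Fin (c + 1) → Fin N,
      Pb q (fun w => ¬ CB (minA d j (fun a => ξT ((v w).1 a) (βo (v w).2))
          (fun a => ξN ((v w).1 a) (βo (v w).2)) e) (Real.exp (-(κ * U))) ∧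
        |eval (fun a => (S' w a : ℝ) / 2 ^ m) (minA d j (fun a => ξT ((v w).1 a) (βo (v w).2))
          (fun a => ξN ((v w).1 a) (βo (v w).2)) e)| < Real.exp (-(τ' * U))) ≤
        η / (2 * (N : ℝ) ^ (c + 1)) := by
    intro e
    exact hRM U m hU1 hW.m_ge hm W ((Fin N → 𝒱) × B) q S' v
      (fun x => minA d j (fun a => ξT (x.1 a) (βo x.2)) (fun a => ξN (x.1 a) (βo x.2)) e)
      hq hS'le hent (fun x => (hmin x e).1) (fun x => (hmin x e).2)
  have hflat : Pb q (fun w => Flat d j (lgT β V ξT N z w) (lgN β V ξN N z w)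
      (Real.exp (-(κ * U)))) ≤ η / 2 := by
    by_contra h
    push Not at h
    exact hF ⟨W, inferInstance, q, z, hMC, h.le⟩
  refine (Pb_mono84 hq0 (B := fun w => Flat d j (lgT β V ξT N z w) (lgN β V ξN N z w)
      (Real.exp (-(κ * U))) ∨ ∃ e : Fin (c + 1) → Fin N,
        ¬ CB (minA d j (fun a => ξT ((v w).1 a) (βo (v w).2))
          (fun a => ξN ((v w).1 a) (βo (v w).2)) e) (Real.exp (-(κ * U))) ∧
        |eval (fun a => (S' w a : ℝ) / 2 ^ m) (minA d j (fun a => ξT ((v w).1 a) (βo (v w).2))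
          (fun a => ξN ((v w).1 a) (βo (v w).2)) e)| < Real.exp (-(τ' * U))) ?_).trans ?_
  · intro w hw hA
    by_cases hfl : Flat d j (lgT β V ξT N z w) (lgN β V ξN N z w) (Real.exp (-(κ * U)))
    · exact Or.inl hfl
    · refine Or.inr ?_
      unfold Flat at hfl
      push Not at hfl hA
      obtain ⟨e, he⟩ := hfl
      refine ⟨e, ?_, ?_⟩
      · rw [← hleg w hw e]; exact he
      · rw [← hleg w hw e, ← hlen w hw]; exact hA e
  · refine (Pb_or84 hq0 _ _).trans ?_
    refine (add_le_add hflat ((Pb_ex84 hq0 _).trans (sum_le_sum fun e _ => hbad e))).trans ?_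
    rw [sum_const, card_univ, nsmul_eq_mul, Fintype.card_fun, Fintype.card_fin, Fintype.card_fin]
    push_cast
    have h5 : (N : ℝ) ^ (c + 1) * (η / (2 * (N : ℝ) ^ (c + 1))) = η / 2 := by
      field_simp
    rw [h5]
    linarith only []

end Pool.STAT
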